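import Pool.Agent.Lib.MP_524519_ag.DU5.AB.Iface

/-! # DU5, chapter AB, module UP: the upper bound -/

set_option autoImplicit false

namespace Pool.Agent.DU5.AB

open MvPowerSeries Pool.Agent.DU5

namespace UP

theorem sum_choose_one (p : ℕ) :
    ∑ n ∈ Finset.range p, (n + 1).choose 2 = (p + 1).choose 3 := by
  induction p with
  | zero => rfl
  | succ p ih => rw [Finset.sum_range_succ, ih, add_comm]; exact (Nat.choose_succ_succ _ _).symm

theorem sum_choose_two (p : ℕ) :
    ∑ n ∈ Finset.range p, (n + 2).choose 2 = (p + 2).choose 3 := by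
  induction p with
  | zero => rfl
  | succ p ih => rw [Finset.sum_range_succ, ih, add_comm]; exact (Nat.choose_succ_succ _ _).symm

end UP

/-- UP: the upper bound. -/
theorem up (h1 : COREStatement) (h2 : AUBStatement) (h3 : FEXTStatement) (h4 : MPOWStatement)
    (h5 : ISJStatement) : UPStatement := by
  intro p _ k F _ _ _ _ _ f hjac a ha a' ha' b hb b₁ hb₁ b₂ hb₂
  refine (h1 p k f hjac).trans ?_
  obtain ⟨N, hN⟩ := h4 k 3 (jac f) hjac
  have hJI : jac f ≤ IS p f 0 := h5 p k f
  have hterm : ∀ n ∈ Finset.range p,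
      len k (Ideal.span {f} ⊔ (Ideal.span (Set.range (X : Fin 3 → O k 3)) * jac f) ^ n *
        IS p f 0) ≤
      ((n + 1).choose 2 : ℕ) *
        (len F (Ideal.span {MvPowerSeries.map (algebraMap k F) f, a, a'}) +
          2 * len F (Ideal.span {MvPowerSeries.map (algebraMap k F) f, a, b})) +
      ((n + 2).choose 2 : ℕ) *
        len F (Ideal.span {MvPowerSeries.map (algebraMap k F) f, b₁, b₂}) := by
    intro n _
    have hle : Ideal.span (Set.range (X : Fin 3 → O k 3)) ^ ((1 + N) * n + N) ≤
        Ideal.span {f} ⊔ (Ideal.span (Set.range (X : Fin 3 → O k 3)) * jac f) ^ n *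
        IS p f 0 := by
      refine le_trans ?_ le_sup_right
      rw [pow_add, pow_mul, pow_add, pow_one]
      exact Ideal.mul_mono (Ideal.pow_right_mono (Ideal.mul_mono le_rfl hN) n) (hN.trans hJI)
    refine (h3 k F 3 _ _ hle).trans ?_
    have hM : (Ideal.span (Set.range (X : Fin 3 → O k 3))).map
        (MvPowerSeries.map (algebraMap k F)) = Ideal.span (Set.range (X : Fin 3 → O F 3)) := by
      rw [Ideal.map_span, ← Set.range_comp]
      congr 2
      funext i
      simp
    rw [Ideal.map_sup, Ideal.map_mul, Ideal.map_pow, Ideal.map_mul, hM, Ideal.map_span,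
      Set.image_singleton]
    exact h2 F (O F 3) _ a a' b b₁ b₂ _ _ _ n (Ideal.map_mono hJI) ha ha' hb hb₁ hb₂
  refine (Finset.sum_le_sum hterm).trans (le_of_eq ?_)
  rw [Finset.sum_add_distrib, ← Finset.sum_mul, ← Finset.sum_mul, ← Nat.cast_sum, ← Nat.cast_sum,
    UP.sum_choose_one, UP.sum_choose_two]

end Pool.Agent.DU5.AB
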